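import Pool.Agent.RCM.PiG
import Pool.Agent.RCM.Top

/-!
`π` and `Γ(x)` are algebraically independent for all rational `x` with `2 x` not an integer, except
for at most one class `± x₀ + ℤ`; Rohrlich's equivalence for all tuples built from such an `x`,
its reflection, half-integers and integers.
-/

open Pool.Agent.RCM

namespace Pool.Agent.Results.MP_c2409d_nt.GammaAndPi

/-- the gamma product is an algebraic multiple of `π ^ (r / 2)` -/
def GammaMult {r : ℕ} (a : Fin r → ℚ) : Prop :=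
  ∃ α : ℝ, IsAlgebraic ℚ α ∧ ∏ i, Real.Gamma ((a i : ℚ) : ℝ) = α * Real.pi ^ ((r : ℝ) / 2)

/-- the fractional part identity for the common denominator `M` -/
def FracId (M : ℕ) {r : ℕ} (a : Fin r → ℚ) : Prop :=
  ∀ m : ℕ, 1 ≤ m → m ≤ M → Nat.Coprime m M → ∑ i, Int.fract ((m : ℚ) * a i) = (r : ℚ) / 2

theorem result : ∃ x₀ : ℚ, 5 ≤ x₀.den ∧ x₀.den ≠ 6 ∧
    ∀ x : ℚ, (∀ z : ℤ, 2 * x ≠ z) → (∀ z : ℤ, x ≠ x₀ + z ∧ x ≠ -x₀ + z) →
      AlgebraicIndependent ℚ ![Real.pi, Real.Gamma x] ∧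
      ∀ (r : ℕ) (a : Fin r → ℚ), (∀ (i : Fin r) (n : ℕ), a i ≠ -(n : ℚ)) →
        (∀ i, ∃ z : ℤ, a i = x + z ∨ a i = -x + z ∨ a i = z / 2) →
        ∀ M : ℕ, 0 < M → (∀ i, ∃ z : ℤ, (M : ℚ) * a i = z) → (GammaMult a ↔ FracId M a) := by
  obtain ⟨x₀, h5, h6, h⟩ := pi_gamma_all trAll
  refine ⟨x₀, h5, h6, fun x hx hx0 => ?_⟩
  obtain ⟨h1, h2⟩ := h x hx hx0
  refine ⟨h1, fun r a hnp ha M hM hMa => ?_⟩
  have hni : ∀ z : ℤ, x ≠ z := by
    intro z hz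
    apply hx (2 * z)
    rw [hz]
    push_cast
    ring
  have hpos : 0 < Int.fract x := lt_of_le_of_ne (Int.fract_nonneg x) (Ne.symm (fract_ne' hni))
  have hlt := Int.fract_lt_one x
  have hhalf : Int.fract x ≠ 1 / 2 := by
    intro h1
    apply hx (2 * ⌊x⌋ + 1)
    have h2 := Int.floor_add_fract x
    rw [h1] at h2
    push_cast
    linarith
  obtain ⟨hd, hc, hp, hl, he⟩ := pt_frac hpos hlt hhalf
  have h3 : ((Int.fract x : ℚ) : ℝ) =
      (((Int.fract x).num.toNat : ℕ) : ℝ) / ((Int.fract x).den : ℝ) := by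
    conv_lhs => rw [he]
    push_cast
    rfl
  rw [h3] at h2
  refine GP.DedM.iffGood hp hl h2 a hnp ?_ M hM hMa
  intro i
  have hfl : x = Int.fract x + ⌊x⌋ := (Int.fract_add_floor x).symm
  obtain ⟨z, hz | hz | hz⟩ := ha i
  · refine ⟨⌊x⌋ + z, Or.inl ?_⟩
    rw [← he, hz]
    push_cast
    linarith
  · refine ⟨z - ⌊x⌋, Or.inr (Or.inl ?_)⟩
    rw [← he, hz]
    push_cast
    linarith
  · exact ⟨z, Or.inr (Or.inr hz)⟩

end Pool.Agent.Results.MP_c2409d_nt.GammaAndPi
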